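import Pool.Agent.W763.PB.Stm

/-! # Project PB: the limit of the weight operators -/

set_option autoImplicit false

open Filter Topology
open scoped InnerProductSpace

namespace Pool.Agent.W369.PB

open Pool.Agent.W763.PB

theorem l5 : S_L2 → S_L3 → S_L5 := by
  intro hL2 hL3 H _ _ _ J E _ _ _ i hiJ hdense D K hsa hlo hup hcom
  obtain ⟨g1, g2, g3, g4, g5⟩ := hL3 H J E i hiJ hdense
  let A : ℕ → E →L[ℂ] E := fun m => (i m).toContinuousLinearMap ∘L (D m) ∘L
    ContinuousLinearMap.adjoint (i m).toContinuousLinearMap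
  have hA : ∀ m v, A m v =
      i m (D m (ContinuousLinearMap.adjoint (i m).toContinuousLinearMap v)) := fun m v => rfl
  have hAn : ∀ m v, ‖A m v‖ =
      ‖D m (ContinuousLinearMap.adjoint (i m).toContinuousLinearMap v)‖ := by
    intro m v
    rw [hA, LinearIsometry.norm_map]
  have hAb : ∀ m v, ‖A m v‖ ≤ max K 0 * ‖v‖ := by
    intro m v
    rw [hAn]
    refine (hup m _).trans ?_
    calc K * ‖ContinuousLinearMap.adjoint (i m).toContinuousLinearMap v‖
        ≤ max K 0 * ‖ContinuousLinearMap.adjoint (i m).toContinuousLinearMap v‖ :=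
          mul_le_mul_of_nonneg_right (le_max_left _ _) (norm_nonneg _)
      _ ≤ max K 0 * ‖v‖ := mul_le_mul_of_nonneg_left (g5 m v) (le_max_right _ _)
  have hAi : ∀ l (y : H l) (n : ℕ), A (l + n) (i l y) = i l (D l y) := by
    intro l y n
    induction n with
    | zero =>
      rw [add_zero, hA, g1]
    | succ n ih =>
      rw [← add_assoc, hA, g3 l (l + n) y (Nat.le_add_right l n), hcom, hiJ, ← hA, ih]
  have hAt : ∀ l (y : H l), Tendsto (fun n => A n (i l y)) atTop (𝓝 (i l (D l y))) := by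
    intro l y
    refine tendsto_const_nhds.congr' ?_
    filter_upwards [eventually_ge_atTop l] with n hn
    obtain ⟨k, rfl⟩ := Nat.exists_eq_add_of_le hn
    exact (hAi l y k).symm
  obtain ⟨B, hB, hBK⟩ := hL2 E A (max K 0) (⋃ l, Set.range (i l)) hdense hAb (by
    intro x hx
    obtain ⟨l, hl⟩ := Set.mem_iUnion.1 hx
    obtain ⟨y, rfl⟩ := hl
    exact ⟨_, hAt l y⟩)
  have hBi : ∀ l (y : H l), B (i l y) = i l (D l y) := fun l y =>
    tendsto_nhds_unique (hB (i l y)) (hAt l y)
  have hAsa : ∀ m x y, ⟪A m x, y⟫_ℂ = ⟪x, A m y⟫_ℂ := by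
    intro m x y
    have e1 : ⟪A m x, y⟫_ℂ = ⟪D m (ContinuousLinearMap.adjoint (i m).toContinuousLinearMap x),
        ContinuousLinearMap.adjoint (i m).toContinuousLinearMap y⟫_ℂ :=
      (ContinuousLinearMap.adjoint_inner_right (i m).toContinuousLinearMap _ _).symm
    have e2 : ⟪x, A m y⟫_ℂ = ⟪ContinuousLinearMap.adjoint (i m).toContinuousLinearMap x,
        D m (ContinuousLinearMap.adjoint (i m).toContinuousLinearMap y)⟫_ℂ :=
      (ContinuousLinearMap.adjoint_inner_left (i m).toContinuousLinearMap _ _).symm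
    rw [e1, e2, hsa]
  have hBsa : ∀ x y, ⟪B x, y⟫_ℂ = ⟪x, B y⟫_ℂ := by
    intro x y
    have h1 : Tendsto (fun m => ⟪A m x, y⟫_ℂ) atTop (𝓝 ⟪B x, y⟫_ℂ) :=
      (hB x).inner tendsto_const_nhds
    have h2 : Tendsto (fun m => ⟪x, A m y⟫_ℂ) atTop (𝓝 ⟪x, B y⟫_ℂ) :=
      tendsto_const_nhds.inner (hB y)
    refine tendsto_nhds_unique h1 (h2.congr fun m => ?_)
    exact (hAsa m x y).symm
  have hBlo : ∀ v, ‖v‖ ≤ ‖B v‖ := by
    intro v
    refine le_of_tendsto_of_tendsto' (g4 v).norm (hB v).norm fun m => ?_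
    rw [LinearIsometry.norm_map, hAn]
    exact hlo m _
  have hker : LinearMap.ker B.toLinearMap = ⊥ := by
    rw [LinearMap.ker_eq_bot']
    intro v hv
    have h1 := hBlo v
    have h2 : B v = 0 := hv
    rw [h2, norm_zero] at h1
    exact norm_le_zero_iff.1 h1
  have hanti : AntilipschitzWith 1 B := by
    refine ContinuousLinearMap.antilipschitz_of_bound B fun v => ?_
    rw [NNReal.coe_one, one_mul]
    exact hBlo v
  have hcl : IsClosed (Set.range B) := hanti.isClosed_range B.uniformContinuous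
  have hran : LinearMap.range B.toLinearMap = ⊤ := by
    have hcl' : IsClosed ((LinearMap.range B.toLinearMap : Submodule ℂ E) : Set E) := by
      rw [LinearMap.coe_range]
      exact hcl
    have : CompleteSpace (LinearMap.range B.toLinearMap : Submodule ℂ E) :=
      hcl'.completeSpace_coe
    rw [← Submodule.orthogonal_eq_bot_iff, Submodule.eq_bot_iff]
    intro v hv
    have h1 : ∀ u, ⟪B u, v⟫_ℂ = 0 := fun u =>
      (Submodule.mem_orthogonal _ v).1 hv (B u) ⟨u, rfl⟩
    have h2 : B v = 0 := by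
      have h3 := h1 (B v)
      rw [hBsa] at h3
      exact inner_self_eq_zero.1 h3
    have h4 := hBlo v
    rw [h2, norm_zero] at h4
    exact norm_le_zero_iff.1 h4
  refine ⟨ContinuousLinearEquiv.ofBijective B hker hran, ?_, ?_, ?_⟩
  · intro l x
    rw [ContinuousLinearEquiv.coeFn_ofBijective]
    exact hBi l x
  · intro x y
    rw [ContinuousLinearEquiv.coeFn_ofBijective]
    exact hBsa x y
  · intro v
    rw [ContinuousLinearEquiv.coeFn_ofBijective]
    exact hBlo v

end Pool.Agent.W369.PB
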