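import Pool.Agent.W763.PB.Stm

/-! # Project PB: the correlation of the profile -/

set_option autoImplicit false

namespace Pool.Agent.W369.PB

open Pool.Agent.W763.PB

theorem z2 : S_R0 → S_R2 → S_Z0 → S_Z2 := by
  intro hR0 hR2 hZ0 k b m _ _ hk hb n hn
  have hb64 : (64 : ℝ) ≤ b := (hR2 k b hk hb).1
  have hb' : 64 ≤ b := by exact_mod_cast hb64
  have hm : 1 ≤ m := NeZero.one_le
  have hbm : 64 * m ≤ b * m := Nat.mul_le_mul_right m hb'
  obtain ⟨hq0, hq1, hqn, -, -⟩ := hR0 k hk m hm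
  have hval : ∀ t : ZMod (b * m), t.val < 2 * m →
      (t + (n : ZMod (b * m))).val = t.val + n := by
    intro t ht
    rw [ZMod.val_add, ZMod.val_natCast, Nat.mod_eq_of_lt (show n < b * m by omega),
      Nat.mod_eq_of_lt (by omega)]
  refine ⟨?_, hval⟩
  set q := qq k m with hq
  set c := cc k m with hc
  have hk1 : (1 : ℝ) < k := by linarith
  have hkk : 0 < 1 - k ^ (-2 : ℝ) := by
    have : k ^ (-2 : ℝ) < 1 := Real.rpow_lt_one_of_one_lt_of_neg hk1 (by norm_num)
    linarith
  have hqq1 : q ^ 2 < 1 := by nlinarith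
  have hcc : c ^ 2 = (1 - q ^ 2) / (1 - k ^ (-2 : ℝ)) := by
    rw [hc, cc, Real.sq_sqrt]
    exact div_nonneg (by linarith) hkk.le
  have e1 : ∀ t : ZMod (b * m), Om k b m t * Om k b m (t + n) =
      (fun j : ℕ => if j + n < 2 * m then c ^ 2 * q ^ (2 * j + n) else 0) t.val := by
    intro t
    change Om k b m t * Om k b m (t + n) =
      if t.val + n < 2 * m then c ^ 2 * q ^ (2 * t.val + n) else 0
    unfold Om
    by_cases ht : t.val < 2 * m
    · rw [if_pos ht, hval t ht]
      by_cases h2 : t.val + n < 2 * m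
      · rw [if_pos h2, if_pos h2]
        ring
      · rw [if_neg h2, if_neg h2, mul_zero]
    · rw [if_neg ht, zero_mul, if_neg (by omega)]
  rw [Finset.sum_congr rfl fun t _ => e1 t]
  refine (hZ0 (b * m)
    (fun j : ℕ => if j + n < 2 * m then c ^ 2 * q ^ (2 * j + n) else 0)).trans ?_
  have e2 : ∑ j ∈ Finset.range (b * m),
      (fun j : ℕ => if j + n < 2 * m then c ^ 2 * q ^ (2 * j + n) else 0) j =
      ∑ j ∈ Finset.range (2 * m - n), c ^ 2 * q ^ n * (q ^ 2) ^ j := by
    have h1 : Finset.range (2 * m - n) ⊆ Finset.range (b * m) :=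
      Finset.range_subset_range.2 (by omega)
    rw [← Finset.sum_subset h1]
    · refine Finset.sum_congr rfl fun j hj => ?_
      have := Finset.mem_range.1 hj
      change (if j + n < 2 * m then c ^ 2 * q ^ (2 * j + n) else 0) = _
      rw [if_pos (by omega)]
      ring
    · intro j _ hj
      have : ¬ j < 2 * m - n := fun h => hj (Finset.mem_range.2 h)
      change (if j + n < 2 * m then c ^ 2 * q ^ (2 * j + n) else 0) = 0
      rw [if_neg (by omega)]
  rw [e2, ← Finset.mul_sum, geom_sum_eq hqq1.ne, hcc, kap]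
  have e3 : q ^ n = k ^ (-((n : ℝ) / m / 2)) := by
    rw [hqn n]
    congr 2
    rw [div_div, mul_comm]
  have hm' : (0 : ℝ) < m := by exact_mod_cast hm
  have e4 : (q ^ 2) ^ (2 * m - n) = k ^ (-(2 - (n : ℝ) / m)) := by
    rw [← pow_mul, hqn]
    congr 2
    rw [Nat.cast_mul, Nat.cast_sub (by omega)]
    push_cast
    field_simp
    try ring
  rw [e4, ← e3]
  have h5 : q ^ 2 - 1 ≠ 0 := by linarith
  have h6 : 1 - k ^ (-2 : ℝ) ≠ 0 := hkk.ne'
  generalize k ^ (-(2 - (n : ℝ) / m)) = w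
  generalize k ^ (-2 : ℝ) = z at h6 ⊢
  field_simp
  ring

end Pool.Agent.W369.PB
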